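import Pool.Agent.H7.LD.Stmts
import Pool.Agent.H4.HZ.NS1

/-! Board jb14 (MP_fd41b2_co), row NS1W: copy of `Pool.HZ7.NS1_thm` (helper4) with `PrW`. -/

set_option autoImplicit false

open Finset

namespace Pool.LD7

open Pool.Agent.H23.KT Pool.Agent.H46.KW Pool.KQ Pool.GT7 Pool.GU7 Pool.HZ7 Pool.IA7

theorem NS1W_thm (hEST : ESTStmt) : NS1WStmt := by
  intro p r hpr
  refine ⟨p + 4, fun a ha n σ hn hσ => ?_⟩
  have hr : r ≤ p + 3 := by have := hpr.rp; omega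
  -- the model
  let τ : Fin (p + 4) → ℕ := fun j => if (j : ℕ) < p + 3 - r then 1 else 0
  let k : Fin (p + 4) → ℕ := fun j => if (j : ℕ) < p + 3 - r then a else a + 1
  have hk : ∀ j, k j + τ j = a + 1 := fun j => by
    show (if _ then _ else _) + (if _ then _ else _) = _
    split_ifs <;> rfl
  have hτ : ∑ j, τ j = p + 3 - r := by
    show ∑ j : Fin (p + 4), (if (j : ℕ) < p + 3 - r then 1 else 0) = _
    rw [Fin.sum_univ_eq_sum_range (fun j => if j < p + 3 - r then 1 else 0) (p + 4)]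
    rw [← Finset.sum_filter, Finset.sum_const, smul_eq_mul, mul_one]
    have : (range (p + 4)).filter (fun j => j < p + 3 - r) = range (p + 3 - r) := by
      ext j
      simp only [mem_filter, mem_range]
      omega
    rw [this, card_range]
  have hksum : ∑ j, k j = (p + 4) * a + (r + 1) := by
    have h1 : ∑ j, k j + ∑ j, τ j = (p + 4) * (a + 1) := by
      rw [← sum_add_distrib, sum_congr rfl fun j _ => hk j]
      simp
    rw [hτ] at h1
    have h2 : (p + 4) * (a + 1) = (p + 4) * a + (p + 4) := by ring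
    omega
  have hTT : es k 3 = TT (p + 4) 3 a (r + 1) := by
    refine (hEST.2.1 k 3 a (r + 1) (fun i => ?_) hksum).1
    show (if _ then _ else _) = a ∨ (if _ then _ else _) = a + 1
    split_ifs
    · exact Or.inl rfl
    · exact Or.inr rfl
  set S : ℝ := (p : ℝ) + 3 - r with hS
  have sσ : ∑ j, (σ j : ℝ) = S := by
    have : ((∑ j, σ j + r : ℕ) : ℝ) = ((p + 3 : ℕ) : ℝ) := by rw [hσ]
    push_cast at this
    rw [hS]; linarith
  have sτ : ∑ j, (τ j : ℝ) = S := by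
    have : ((∑ j, τ j : ℕ) : ℝ) = ((p + 3 - r : ℕ) : ℝ) := by rw [hτ]
    push_cast [Nat.cast_sub hr] at this
    rw [hS, this]
  have hτ2 : ∀ j, (τ j : ℝ) ^ 2 = τ j := fun j => by
    show (((if _ then _ else _ : ℕ)) : ℝ) ^ 2 = ((if _ then _ else _ : ℕ) : ℝ)
    split_ifs <;> simp
  have sτ2 : ∑ j, (τ j : ℝ) ^ 2 = S := by rw [sum_congr rfl fun j _ => hτ2 j, sτ]
  have sτ3 : ∑ j, (τ j : ℝ) ^ 3 = S := by
    rw [sum_congr rfl fun j _ => show (τ j : ℝ) ^ 3 = τ j by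
      rw [pow_succ, hτ2 j, ← pow_two, hτ2 j], sτ]
  have e1 := ns1_es (p + 4) a n σ hn
  have e2 := ns1_es (p + 4) a k τ hk
  rw [sσ] at e1
  rw [sτ, sτ2, sτ3, hTT] at e2
  set q : ℝ := ∑ j, (σ j : ℝ) ^ 2 with hq
  set c : ℝ := ∑ j, (σ j : ℝ) ^ 3 with hc
  have hnr : ∀ j, (n j : ℝ) = a + 1 - σ j := fun j => by
    have : ((n j + σ j : ℕ) : ℝ) = ((a + 1 : ℕ) : ℝ) := by rw [hn j]
    push_cast at this
    linarith
  have t1 : ∑ j, (n j : ℝ) * σ j = (a + 1) * S - q := by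
    rw [sum_congr rfl fun j _ => show (n j : ℝ) * σ j = (a + 1) * σ j - (σ j : ℝ) ^ 2 by
      rw [hnr j]; ring, sum_sub_distrib, ← mul_sum, sσ]
  have t2 : ∑ j, (n j : ℝ) * σ j * (σ j + 1) = (a + 1) * q + (a + 1) * S - c - q := by
    rw [sum_congr rfl fun j _ => show (n j : ℝ) * σ j * (σ j + 1) =
      (a + 1) * (σ j : ℝ) ^ 2 + (a + 1) * σ j - (σ j : ℝ) ^ 3 - (σ j : ℝ) ^ 2 by
        rw [hnr j]; ring, sum_sub_distrib, sum_sub_distrib, sum_add_distrib, ← mul_sum, ← mul_sum,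
      sσ]
  -- comparison
  have hle : ∀ j, (σ j : ℝ) ≤ p + 3 := fun j => by
    have h1 : σ j ≤ ∑ j, σ j := single_le_sum (f := σ) (fun _ _ => Nat.zero_le _) (mem_univ j)
    have h2 : σ j ≤ p + 3 := by omega
    exact_mod_cast h2
  have hqc : c - S ≤ (p + 4) * (q - S) := by
    have h1 : c - S = ∑ j, ((σ j : ℝ) ^ 3 - σ j) := by rw [sum_sub_distrib, sσ]
    have h2 : q - S = ∑ j, ((σ j : ℝ) ^ 2 - σ j) := by rw [sum_sub_distrib, sσ]
    rw [h1, h2, mul_sum]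
    refine sum_le_sum fun j _ => ?_
    have h3 : (0 : ℝ) ≤ (σ j : ℝ) ^ 2 - σ j := by
      rcases Nat.eq_zero_or_pos (σ j) with h | h
      · rw [h]; simp
      · have : (1 : ℝ) ≤ σ j := by exact_mod_cast h
        nlinarith
    have h4 : (σ j : ℝ) ^ 3 - σ j = (σ j + 1) * ((σ j : ℝ) ^ 2 - σ j) := by ring
    rw [h4]
    exact mul_le_mul_of_nonneg_right (by linarith [hle j]) h3
  have hqS : 0 ≤ q - S := by
    have h2 : q - S = ∑ j, ((σ j : ℝ) ^ 2 - σ j) := by rw [sum_sub_distrib, sσ]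
    rw [h2]
    refine sum_nonneg fun j _ => ?_
    rcases Nat.eq_zero_or_pos (σ j) with h | h
    · rw [h]; simp
    · have : (1 : ℝ) ≤ σ j := by exact_mod_cast h
      nlinarith
  have haR : (p : ℝ) + 4 ≤ a := by exact_mod_cast ha
  have hcast : (((p + 3 - r : ℕ) : ℝ)) = S := by
    rw [Nat.cast_sub hr, hS]; push_cast; ring
  have key : Psi p r a 1 n σ = (TT (p + 4) 3 a (r + 1) : ℝ) - 1 / 2 * (S * a) * Xz p r a -
      a / 2 * (q - S) + 1 / 6 * (c - S) := by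
    unfold Psi Xz
    rw [t1, t2]
    have e3 : (es n 3 : ℝ) = 1 / 6 * (6 * (es n 3 : ℝ)) := by ring
    have e4 : (TT (p + 4) 3 a (r + 1) : ℝ) = 1 / 6 * (6 * (TT (p + 4) 3 a (r + 1) : ℝ)) := by ring
    rw [e3, e4, e1, e2]
    have hr' : (r : ℝ) = p + 3 - S := by rw [hS]; ring
    push_cast
    rw [hr']
    ring
  rw [hcast, key]
  have h6 : (p + 4) * (q - S) ≤ a * (q - S) := mul_le_mul_of_nonneg_right haR hqS
  nlinarith

end Pool.LD7
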